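import Pool.Agent.Mg.Ff0649b.G523867

/-!
The Isaacs-Seitz inequality: the derived length of a finite solvable group is at most the number
of its irreducible character degrees.
-/

open Pool.Agent.MP_f0649b_al

namespace Pool.Agent.MP_f0649b_al.Old.IsaacsSeitz

theorem result (G : Type) [Group G] [Finite G] [Group.IsSolvable G] :
    derivedSeries G
      {d : ℕ | ∃ ρ : Representation ℂ G (Fin d → ℂ), ρ.IsIrreducible}.ncard = ⊥ := by
  have e : {d : ℕ | ∃ ρ : Representation ℂ G (Fin d → ℂ), ρ.IsIrreducible} = cd G := by
    ext d
    constructor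
    · rintro ⟨ρ, h⟩
      exact ⟨Fin d → ℂ, inferInstance, inferInstance, inferInstance, ρ, (Bridge_irr_iff ρ).2 h,
        by simp⟩
    · rintro ⟨V, _, _, _, ρ, h, rfl⟩
      let A : V ≃ₗ[ℂ] (Fin (Module.finrank ℂ V) → ℂ) := (Module.finBasis ℂ V).equivFun
      refine ⟨(A.conjRingEquiv.toMonoidHom).comp ρ, (Bridge_irr_iff _).1 ⟨?_, fun U hU => ?_⟩⟩
      · have := h.1
        exact A.symm.toEquiv.nontrivial
      · rcases h.2 (U.comap A.toLinearMap) (fun g v hv => by
          have := hU g (A v) hv
          simpa using this) with e | e
        · left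
          rw [eq_bot_iff]
          intro w hw
          have : A.symm w ∈ U.comap A.toLinearMap := by simpa using hw
          rw [e] at this
          simpa using this
        · right
          rw [eq_top_iff]
          intro w _
          have : A.symm w ∈ U.comap A.toLinearMap := e ▸ trivial
          simpa using this
  rw [e]
  exact F.isaacs_seitz G

end Pool.Agent.MP_f0649b_al.Old.IsaacsSeitz
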